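import Pool.Agent.W959.EntBoard

set_option autoImplicit false

/-!
# Data structures for 3SUM-Indexing and entangled blocks
-/

namespace Pool.Agent.TH457.EntD.TSI

open Pool.Agent.W959.Ent

/-- The first array. It consists of `k` blocks; the elements of the block `i` are of the form
`2 * u * i + e` with `e < u`, where `e` is in the set `F i`. -/
def arr1 {k u : ℕ} (F : Fin (k + k) → Finset (Fin u)) : Set ℕ :=
  {a | ∃ i : Fin k, ∃ e ∈ F (Fin.castAdd k i), a = 2 * u * i + e}

/-- The second array. It consists of `k` blocks; the elements of the block `j` are of the form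
`2 * u * k * j + (u - 1 - e)` with `e < u`, where `e` is in the set `F (k + j)`. -/
def arr2 {k u : ℕ} (F : Fin (k + k) → Finset (Fin u)) : Set ℕ :=
  {a | ∃ j : Fin k, ∃ e ∈ F (Fin.natAdd k j), a = 2 * u * k * j + (u - 1 - e)}

/-- A data structure: a memory of `s` cells of `w` bits, and an adaptive query procedure for each
number `z`. The contents of the cell `c` is given by a blackboard protocol `cell c` of arbitrary
length with one player for each block of one of the two arrays (every function of the two arrays is
the result of such a protocol). -/
structure DS (k u w s : ℕ) where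
  cell : Fin s → Board (k + k) (Finset (Fin u)) (Fin (2 ^ w))
  query : ℕ → QTree s (Fin (2 ^ w)) Bool

variable {k u w s : ℕ}

/-- the memory for the arrays given by `F` -/
def DS.mem (D : DS k u w s) (F : Fin (k + k) → Finset (Fin u)) : Fin s → Fin (2 ^ w) :=
  fun c => (D.cell c).run F

/-- The query `z`, whether `z` is the sum of an element of the first array and an element of the
second array, is answered correctly, and at most `T` cells are read. -/
def DS.Good (D : DS k u w s) (T : ℕ) (F : Fin (k + k) → Finset (Fin u)) (z : ℕ) : Prop :=
  ((D.query z).run (D.mem F) = true ↔ ∃ a ∈ arr1 F, ∃ a' ∈ arr2 F, a + a' = z) ∧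
    (D.query z).cost (D.mem F) ≤ T

open Classical in
/-- The random data structure `D` (with probabilities `p`) solves 3SUM-Indexing with `T` probes for
arrays with together at most `n` elements: for all such arrays, every query is `Good` with
probability at least `99 / 100`. -/
def Solves {Ω : Type} [Fintype Ω] (p : Ω → ℝ) (D : Ω → DS k u w s) (T n : ℕ) : Prop :=
  (∀ ω, 0 ≤ p ω) ∧ ∑ ω, p ω = 1 ∧
    ∀ F : Fin (k + k) → Finset (Fin u), ∑ l, (F l).card ≤ n → ∀ z : ℕ,
      99 / 100 ≤ ∑ ω, if (D ω).Good T F z then p ω else 0

/-- The pairs entangled by the cell `c`: the pairs `(i, j)` such that in the computation of the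
contents of `c` both the block `i` of the first array and the block `j` of the second array write on
the blackboard, and together they write more than `b` bits. -/
def DS.entangled (D : DS k u w s) (b : ℕ) (F : Fin (k + k) → Finset (Fin u)) (c : Fin s) :
    Finset (Fin k × Fin k) :=
  Finset.univ.filter fun e => 0 < (D.cell c).bits F (Fin.castAdd k e.1) ∧
    0 < (D.cell c).bits F (Fin.natAdd k e.2) ∧
    b < (D.cell c).bits F (Fin.castAdd k e.1) + (D.cell c).bits F (Fin.natAdd k e.2)

end Pool.Agent.TH457.EntD.TSI
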