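import Pool.Agent.TH457.EntD.Average
import Pool.Agent.TH457.EntD.TSIDefs

set_option autoImplicit false

/-!
# 3SUM-Indexing: the total entanglement of a data structure
-/

namespace Pool.Agent.TH457.EntD

open Pool.Agent.W959 Pool.Agent.W959.Ent

namespace TSI

variable {k u : ℕ}

/-- the query for the blocks `i` and `j` -/
theorem sum_iff (F : Fin (k + k) → Finset (Fin u)) (i j : Fin k) :
    (∃ a ∈ arr1 F, ∃ a' ∈ arr2 F, a + a' = 2 * u * (i + k * j) + (u - 1)) ↔
      ¬ Disjoint (F (Fin.castAdd k i)) (F (Fin.natAdd k j)) := by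
  rw [Finset.not_disjoint_iff]
  constructor
  · rintro ⟨a, ⟨i', e, he, rfl⟩, a', ⟨j', e', he', rfl⟩, h⟩
    have hu := e.2
    have hu' := e'.2
    have h1 : 2 * u * (i' + k * j') + (e.val + (u - 1 - e'.val)) =
        2 * u * (i + k * j) + (u - 1) := by
      rw [← h]
      ring
    have h2 : e.val + (u - 1 - e'.val) < 2 * u := by omega
    have h3 : u - 1 < 2 * u := by omega
    have h4 : (2 * u * (i'.val + k * j'.val) + (e.val + (u - 1 - e'.val))) % (2 * u) =
        (2 * u * (i.val + k * j.val) + (u - 1)) % (2 * u) := by rw [h1]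
    rw [Nat.mul_add_mod, Nat.mul_add_mod, Nat.mod_eq_of_lt h2, Nat.mod_eq_of_lt h3] at h4
    have h5 : (2 * u * (i'.val + k * j'.val) + (e.val + (u - 1 - e'.val))) / (2 * u) =
        (2 * u * (i.val + k * j.val) + (u - 1)) / (2 * u) := by rw [h1]
    rw [Nat.mul_add_div (by omega), Nat.mul_add_div (by omega), Nat.div_eq_of_lt h2,
      Nat.div_eq_of_lt h3] at h5
    have h6 : (i'.val + k * j'.val) % k = (i.val + k * j.val) % k := by
      rw [show i'.val + k * j'.val = i.val + k * j.val by omega]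
    rw [Nat.add_mul_mod_self_left, Nat.add_mul_mod_self_left, Nat.mod_eq_of_lt i'.2,
      Nat.mod_eq_of_lt i.2] at h6
    have h7 : (i'.val + k * j'.val) / k = (i.val + k * j.val) / k := by
      rw [show i'.val + k * j'.val = i.val + k * j.val by omega]
    have hk : 0 < k := Nat.pos_of_ne_zero fun h0 => by subst h0; exact i.elim0
    rw [Nat.add_mul_div_left _ _ hk, Nat.add_mul_div_left _ _ hk, Nat.div_eq_of_lt i'.2,
      Nat.div_eq_of_lt i.2] at h7
    have hi : i' = i := Fin.ext h6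
    have hj : j' = j := Fin.ext (by omega)
    have hee : e = e' := Fin.ext (by omega)
    subst hi hj hee
    exact ⟨e, he, he'⟩
  · rintro ⟨e, he, he'⟩
    refine ⟨_, ⟨i, e, he, rfl⟩, _, ⟨j, e, he', rfl⟩, ?_⟩
    have hu := e.2
    have : e.val + (u - 1 - e.val) = u - 1 := by omega
    calc 2 * u * i.val + e.val + (2 * u * k * j.val + (u - 1 - e.val))
        = 2 * u * (i.val + k * j.val) + (e.val + (u - 1 - e.val)) := by ring
      _ = _ := by rw [this]

/-- **Main theorem.** -/
theorem main (n w b T : ℕ) (hb : 1 ≤ b) (hwb : w ≤ b) (hT : 1 ≤ T)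
    (hn : 2 * 10 ^ 6 * (b * T) ≤ n) :
    ∃ k u : ℕ, k * u ≤ 2 * (b * T) * n ∧ 2 * u * k * k ≤ n ^ 2 ∧
      ∀ (s : ℕ) (Ω : Type) [Fintype Ω] (p : Ω → ℝ) (D : Ω → DS k u w s), Solves p D T n →
        ∀ R : ℝ, (∀ F : Fin (k + k) → Finset (Fin u), ∑ l, (F l).card ≤ n →
          ∑ ω, p ω * ∑ c, (((D ω).entangled b F c).card : ℝ) ≤ R) →
        (n : ℝ) ^ 2 ≤ 10 ^ 15 * (b * T) ^ 2 * R := by
  classical
  obtain ⟨m, hm⟩ : ∃ m, m = 100 * (3 * b * T + 12) := ⟨_, rfl⟩
  obtain ⟨u, hu⟩ : ∃ u, u = m ^ 2 := ⟨_, rfl⟩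
  obtain ⟨k, hk⟩ : ∃ k, k = n / (800 * m) := ⟨_, rfl⟩
  have hbT : 1 ≤ b * T := Nat.mul_pos hb hT
  have hm2 : m ≤ 1500 * (b * T) := by
    rw [hm]
    have : 3 * b * T = 3 * (b * T) := by ring
    omega
  have hm0 : 1200 ≤ m := by omega
  have hmn : 800 * m ≤ n := by omega
  have hkm : k * (800 * m) ≤ n := by rw [hk]; exact Nat.div_mul_le_self n _
  refine ⟨k, u, ?_, ?_, ?_⟩
  · rw [hu]
    have h1 : 800 * (k * m ^ 2) ≤ n * m := by
      calc 800 * (k * m ^ 2) = k * (800 * m) * m := by ring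
        _ ≤ n * m := Nat.mul_le_mul_right _ hkm
    have h2 : n * m ≤ n * (1500 * (b * T)) := Nat.mul_le_mul_left _ hm2
    have h3 : 2 * (b * T) * n = 2 * (n * (b * T)) := by ring
    have h4 : n * (1500 * (b * T)) = 1500 * (n * (b * T)) := by ring
    omega
  · rw [hu]
    have h1 : (k * (800 * m)) ^ 2 ≤ n ^ 2 := Nat.pow_le_pow_left hkm 2
    have h2 : (k * (800 * m)) ^ 2 = 320000 * (2 * m ^ 2 * k * k) := by ring
    omega
  intro s Ω _ p D hD R hR
  obtain ⟨hp0, hp1, hgood⟩ := hD
  let I : Finset (Fin (k + k) × Fin (k + k)) :=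
    Finset.univ.map ⟨fun e : Fin k × Fin k => (Fin.castAdd k e.1, Fin.natAdd k e.2), by
      rintro ⟨a1, a2⟩ ⟨b1, b2⟩ h
      rw [Prod.mk.injEq] at h
      rw [Prod.mk.injEq]
      exact ⟨Fin.castAdd_injective k k h.1, Fin.natAdd_injective k k h.2⟩⟩
  have hcard : I.card = k * k := by
    simp [I]
  have h1 := average (T := T) (s := s) (N := n) hb hwb (le_of_eq hm.symm) hu
    (by
      calc 400 * ((k + k) * m) = k * (800 * m) := by ring
        _ ≤ n := hkm) p hp0 hp1
    (fun ω c => (D ω).cell c) I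
    (by
      intro e he
      simp only [I, Finset.mem_map, Finset.mem_univ, true_and] at he
      obtain ⟨⟨i, j⟩, rfl⟩ := he
      intro h
      have := congrArg Fin.val h
      simp at this
      omega) false
    (by
      intro e he
      simp only [I, Finset.mem_map, Finset.mem_univ, true_and] at he
      obtain ⟨⟨i, j⟩, rfl⟩ := he
      refine ⟨fun ω => (D ω).query (2 * u * (i + k * j) + (u - 1)), fun F hF => ?_⟩
      refine (hgood F hF (2 * u * (i + k * j) + (u - 1))).trans ?_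
      apply Finset.sum_le_sum
      intro ω _
      split_ifs with h2 h3
      · exact le_rfl
      · exfalso
        apply h3
        obtain ⟨h4, h5⟩ := h2
        refine ⟨?_, h5⟩
        rw [sum_iff] at h4
        constructor
        · intro h6
          by_contra h7
          have h8 := h4.2 h7
          exact absurd (h8.symm.trans h6) (by simp)
        · intro h6
          by_contra h7
          rw [Bool.not_eq_false] at h7
          exact h4.1 h7 h6
      · exact hp0 ω
      · exact le_rfl) R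
    (by
      intro F hF
      refine le_trans (le_of_eq ?_) (hR F hF)
      apply Finset.sum_congr rfl
      intro ω _
      congr 1
      rw [Finset.sum_map]
      simp only [own, DS.entangled, Finset.card_filter, Nat.cast_sum, Nat.cast_ite, Nat.cast_one,
        Nat.cast_zero]
      rw [Finset.sum_comm]
      rfl)
  rw [hcard] at h1
  have h2 : n ≤ 1600 * (m * k) := by
    have h3 : n < 800 * m * (k + 1) := by rw [hk]; exact Nat.lt_mul_div_succ n (by omega)
    have h4 : 1 ≤ k := by rw [hk]; exact (Nat.one_le_div_iff (by omega)).2 hmn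
    have h5 : 800 * m ≤ 800 * m * k := Nat.le_mul_of_pos_right _ h4
    have h6 : 800 * m * (k + 1) = 800 * m * k + 800 * m := by ring
    have h7 : 1600 * (m * k) = 800 * m * k + 800 * m * k := by ring
    omega
  have h3 : (n : ℝ) ≤ 1600 * (m * k) := by exact_mod_cast h2
  have hn0 : (0 : ℝ) ≤ n := Nat.cast_nonneg n
  have h4 : (n : ℝ) ^ 2 ≤ (1600 * (m * k)) ^ 2 := pow_le_pow_left₀ hn0 h3 2
  have h5 : (m : ℝ) ≤ 1500 * (b * T) := by exact_mod_cast hm2
  have h6 : (m : ℝ) ^ 2 ≤ (1500 * (b * T)) ^ 2 := pow_le_pow_left₀ (Nat.cast_nonneg m) h5 2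
  have hR0 : 0 ≤ R := by
    have : (0 : ℝ) ≤ ((k * k : ℕ) : ℝ) := Nat.cast_nonneg _
    linarith
  push_cast at h1
  calc (n : ℝ) ^ 2 ≤ (1600 * (m * k)) ^ 2 := h4
    _ = 2560000 * (m : ℝ) ^ 2 * (k * k) := by ring
    _ ≤ 2560000 * (m : ℝ) ^ 2 * (160 * R) := by
        apply mul_le_mul_of_nonneg_left h1
        positivity
    _ ≤ 2560000 * (1500 * (b * T)) ^ 2 * (160 * R) := by
        apply mul_le_mul_of_nonneg_right _ (by positivity)
        linarith
    _ = 921600000000000 * ((b * T) ^ 2 * R) := by ring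
    _ ≤ 10 ^ 15 * ((b * T) ^ 2 * R) := by
        apply mul_le_mul_of_nonneg_right (by norm_num)
        positivity
    _ = _ := by ring

end TSI

end Pool.Agent.TH457.EntD
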