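import Pool.Agent.W959.EntBoard

set_option autoImplicit false

/-!
# Data structures which decide whether two sets of a family intersect
-/

namespace Pool.Agent.TH457.EntD.SI

open Pool.Agent.W959.Ent

/-- A data structure for families of `k` subsets of a universe with `u` elements: a memory of `s`
cells of `w` bits, and an adaptive query procedure for each pair of indices, with a yes/no answer.
The contents of the cell `c` is given by a blackboard protocol `cell c` of arbitrary length with one
player for each set of the family (every function of the family is the result of such a
protocol). -/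
structure DS (k u w s : ℕ) where
  cell : Fin s → Board k (Finset (Fin u)) (Fin (2 ^ w))
  query : Fin k → Fin k → QTree s (Fin (2 ^ w)) Bool

variable {k u w s : ℕ}

/-- the memory for the family `F` -/
def DS.mem (D : DS k u w s) (F : Fin k → Finset (Fin u)) : Fin s → Fin (2 ^ w) :=
  fun c => (D.cell c).run F

/-- The query, whether the sets number `i` and `j` intersect, is answered correctly, and at most `T`
cells are read. -/
def DS.Good (D : DS k u w s) (T : ℕ) (F : Fin k → Finset (Fin u)) (i j : Fin k) : Prop :=
  ((D.query i j).run (D.mem F) = true ↔ (F i ∩ F j).Nonempty) ∧
    (D.query i j).cost (D.mem F) ≤ T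

open Classical in
/-- The random data structure `D` (with probabilities `p`) decides with `T` probes which sets
intersect, for families of total size at most `N`: for all such families and all `i < j` the query
`(i, j)` is `Good` with probability at least `99 / 100`. -/
def Solves {Ω : Type} [Fintype Ω] (p : Ω → ℝ) (D : Ω → DS k u w s) (T N : ℕ) : Prop :=
  (∀ ω, 0 ≤ p ω) ∧ ∑ ω, p ω = 1 ∧
    ∀ F : Fin k → Finset (Fin u), ∑ l, (F l).card ≤ N → ∀ i j : Fin k, i < j →
      99 / 100 ≤ ∑ ω, if (D ω).Good T F i j then p ω else 0

/-- The pairs entangled by the cell `c` on the family `F`: the pairs `i < j` such that in the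
computation of the contents of `c` both the set `i` and the set `j` write on the blackboard, and
together they write more than `b` bits. -/
def DS.entangled (D : DS k u w s) (b : ℕ) (F : Fin k → Finset (Fin u)) (c : Fin s) :
    Finset (Fin k × Fin k) :=
  Finset.univ.filter fun e => e.1 < e.2 ∧ 0 < (D.cell c).bits F e.1 ∧
    0 < (D.cell c).bits F e.2 ∧ b < (D.cell c).bits F e.1 + (D.cell c).bits F e.2

end Pool.Agent.TH457.EntD.SI
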