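import Pool.Agent.TH457.EntD.Average
import Pool.Agent.TH457.EntD.SIDefs

set_option autoImplicit false

/-!
# Deciding whether two sets intersect: the total entanglement of a data structure
-/

namespace Pool.Agent.TH457.EntD.SI

open Pool.Agent.W959 Pool.Agent.W959.Ent

theorem card_pairs (k : ℕ) (hk : 2 ≤ k) :
    (k : ℝ) ^ 2 / 4 ≤ ((Finset.univ.filter fun e : Fin k × Fin k => e.1 < e.2).card : ℝ) := by
  have h1 : (Finset.univ.filter fun e : Fin k × Fin k => e.1 < e.2).card =
      ∑ i ∈ Finset.range k, i := by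
    rw [Finset.card_filter, Fintype.sum_prod_type_right, ← Fin.sum_univ_eq_sum_range (fun i => i) k]
    apply Finset.sum_congr rfl
    intro j _
    rw [← Finset.card_filter]
    have : (Finset.univ.filter fun i : Fin k => i < j) = Finset.Iio j := by
      ext i
      simp
    rw [this, Fin.card_Iio]
  have h2 : (∑ i ∈ Finset.range k, i) * 2 = k * (k - 1) := Finset.sum_range_id_mul_two k
  have h3 : ((∑ i ∈ Finset.range k, i : ℕ) : ℝ) * 2 = k * (k - 1) := by
    have h4 : (((∑ i ∈ Finset.range k, i) * 2 : ℕ) : ℝ) = ((k * (k - 1) : ℕ) : ℝ) := by rw [h2]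
    rw [Nat.cast_mul, Nat.cast_mul, Nat.cast_sub (by omega)] at h4
    simpa using h4
  rw [h1]
  have hk' : (2 : ℝ) ≤ k := by exact_mod_cast hk
  nlinarith

/-- **Main theorem.** -/
theorem main (N w b T : ℕ) (hb : 1 ≤ b) (hwb : w ≤ b) (hT : 1 ≤ T)
    (hN : 2 * 10 ^ 6 * (b * T) ≤ N) :
    ∃ k u : ℕ, ∀ (s : ℕ) (Ω : Type) [Fintype Ω] (p : Ω → ℝ) (D : Ω → DS k u w s),
      Solves p D T N → ∀ R : ℝ,
      (∀ F : Fin k → Finset (Fin u), ∑ l, (F l).card ≤ N →
        ∑ ω, p ω * ∑ c, (((D ω).entangled b F c).card : ℝ) ≤ R) →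
      (N : ℝ) ^ 2 ≤ 10 ^ 15 * (b * T) ^ 2 * R := by
  classical
  obtain ⟨m, hm⟩ : ∃ m, m = 100 * (3 * b * T + 12) := ⟨_, rfl⟩
  obtain ⟨u, hu⟩ : ∃ u, u = m ^ 2 := ⟨_, rfl⟩
  obtain ⟨k, hk⟩ : ∃ k, k = N / (400 * m) := ⟨_, rfl⟩
  have hbT : 1 ≤ b * T := Nat.mul_pos hb hT
  have hm2 : m ≤ 1500 * (b * T) := by
    rw [hm]
    have : 3 * b * T = 3 * (b * T) := by ring
    omega
  have hm0 : 1200 ≤ m := by omega
  have hmn : 800 * m ≤ N := by omega
  have hkm : k * (400 * m) ≤ N := by rw [hk]; exact Nat.div_mul_le_self N _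
  have hk2 : 2 ≤ k := by
    rw [hk]
    exact (Nat.le_div_iff_mul_le (by omega)).2 (by omega)
  refine ⟨k, u, ?_⟩
  intro s Ω _ p D hD R hR
  obtain ⟨hp0, hp1, hgood⟩ := hD
  have h1 := average (T := T) (s := s) (N := N) hb hwb (le_of_eq hm.symm) hu
    (by
      calc 400 * (k * m) = k * (400 * m) := by ring
        _ ≤ N := hkm) p hp0 hp1
    (fun ω c => (D ω).cell c) (Finset.univ.filter fun e : Fin k × Fin k => e.1 < e.2)
    (fun e he => (Finset.mem_filter.1 he).2.ne) false
    (by
      intro e he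
      refine ⟨fun ω => (D ω).query e.1 e.2, fun F hF => ?_⟩
      refine (hgood F hF e.1 e.2 (Finset.mem_filter.1 he).2).trans ?_
      apply Finset.sum_le_sum
      intro ω _
      split_ifs with h2 h3
      · exact le_rfl
      · exfalso
        apply h3
        obtain ⟨h4, h5⟩ := h2
        refine ⟨?_, h5⟩
        rw [Finset.disjoint_iff_inter_eq_empty]
        constructor
        · intro h6
          by_contra h7
          have h8 := h4.2 (Finset.nonempty_iff_ne_empty.2 h7)
          exact absurd (h8.symm.trans h6) (by simp)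
        · intro h6
          by_contra h7
          rw [Bool.not_eq_false] at h7
          exact Finset.nonempty_iff_ne_empty.1 (h4.1 h7) h6
      · exact hp0 ω
      · exact le_rfl) R
    (by
      intro F hF
      refine le_trans (le_of_eq ?_) (hR F hF)
      apply Finset.sum_congr rfl
      intro ω _
      congr 1
      have e1 : ∀ c : Fin s, (((D ω).entangled b F c).card : ℝ) =
          ∑ e ∈ Finset.univ.filter (fun e : Fin k × Fin k => e.1 < e.2), if
          (0 < ((D ω).cell c).bits F e.1 ∧ 0 < ((D ω).cell c).bits F e.2 ∧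
            b < ((D ω).cell c).bits F e.1 + ((D ω).cell c).bits F e.2) then 1 else 0 := by
        intro c
        rw [DS.entangled, ← Finset.filter_filter, Finset.card_filter]
        push_cast
        rfl
      simp only [e1]
      rw [Finset.sum_comm]
      apply Finset.sum_congr rfl
      intro e _
      rw [own, Finset.card_filter]
      push_cast
      rfl)
  have h2 : N ≤ 800 * (m * k) := by
    have h3 : N < 400 * m * (k + 1) := by rw [hk]; exact Nat.lt_mul_div_succ N (by omega)
    have h5 : 400 * m ≤ 400 * m * k := Nat.le_mul_of_pos_right _ (by omega)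
    have h6 : 400 * m * (k + 1) = 400 * m * k + 400 * m := by ring
    have h7 : 800 * (m * k) = 400 * m * k + 400 * m * k := by ring
    omega
  have hP := card_pairs k hk2
  have h3 : (N : ℝ) ≤ 800 * (m * k) := by exact_mod_cast h2
  have hn0 : (0 : ℝ) ≤ N := Nat.cast_nonneg N
  have h4 : (N : ℝ) ^ 2 ≤ (800 * (m * k)) ^ 2 := pow_le_pow_left₀ hn0 h3 2
  have h5 : (m : ℝ) ≤ 1500 * (b * T) := by exact_mod_cast hm2
  have h6 : (m : ℝ) ^ 2 ≤ (1500 * (b * T)) ^ 2 := pow_le_pow_left₀ (Nat.cast_nonneg m) h5 2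
  have h7 : (k : ℝ) ^ 2 ≤ 640 * R := by linarith
  have hR0 : 0 ≤ R := by
    have : (0 : ℝ) ≤ (k : ℝ) ^ 2 := by positivity
    linarith
  calc (N : ℝ) ^ 2 ≤ (800 * (m * k)) ^ 2 := h4
    _ = 640000 * (m : ℝ) ^ 2 * (k : ℝ) ^ 2 := by ring
    _ ≤ 640000 * (m : ℝ) ^ 2 * (640 * R) := by
        apply mul_le_mul_of_nonneg_left h7
        positivity
    _ ≤ 640000 * (1500 * (b * T)) ^ 2 * (640 * R) := by
        apply mul_le_mul_of_nonneg_right _ (by positivity)
        linarith
    _ = 921600000000000 * ((b * T) ^ 2 * R) := by ring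
    _ ≤ 10 ^ 15 * ((b * T) ^ 2 * R) := by
        apply mul_le_mul_of_nonneg_right (by norm_num)
        positivity
    _ = _ := by ring

end Pool.Agent.TH457.EntD.SI
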