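import Pool.Agent.TH457.EntD.Pair

set_option autoImplicit false

/-!
# Many pairs: averaging over random families of bounded total size
-/

namespace Pool.Agent.TH457.EntD

open Pool.Agent.W959 Pool.Agent.W959.Ent

/-- the family with the given characteristic vectors -/
abbrev fm {K n : ℕ} (G : Fin K → Fin n → Bool) : Fin K → Finset (Fin n) := fun l => Ent.setOf (G l)

theorem fm_upd {K n : ℕ} (G : Fin K → Fin n → Bool) (i j : Fin K) (x y : Fin n → Bool) :
    fm (upd G i j x y) = fam G i j x y := by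
  funext l
  simp only [fm, fam, upd, Function.update_apply]
  split_ifs <;> rfl

/-- expectation over a random family -/
noncomputable def EE (r : ℝ) (K n : ℕ) (h : (Fin K → Fin n → Bool) → ℝ) : ℝ :=
  ∑ G, (∏ l, mu r n (G l)) * h G

section

variable {r : ℝ} {K n : ℕ}

theorem EE_const (c : ℝ) : EE r K n (fun _ => c) = c := by
  unfold EE
  rw [← Finset.sum_mul, sum_weights, one_mul]

theorem EE_add (f g : (Fin K → Fin n → Bool) → ℝ) :
    EE r K n (fun G => f G + g G) = EE r K n f + EE r K n g := by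
  unfold EE
  rw [← Finset.sum_add_distrib]
  exact Finset.sum_congr rfl fun G _ => by ring

theorem EE_mul (c : ℝ) (f : (Fin K → Fin n → Bool) → ℝ) :
    EE r K n (fun G => c * f G) = c * EE r K n f := by
  unfold EE
  rw [Finset.mul_sum]
  exact Finset.sum_congr rfl fun G _ => by ring

theorem EE_sum {ι : Type} (s : Finset ι) (f : ι → (Fin K → Fin n → Bool) → ℝ) :
    EE r K n (fun G => ∑ i ∈ s, f i G) = ∑ i ∈ s, EE r K n (f i) := by
  unfold EE
  simp only [Finset.mul_sum]
  rw [Finset.sum_comm]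

theorem EE_mono (h0 : 0 ≤ r) (h1 : 0 ≤ 1 - r) {f g : (Fin K → Fin n → Bool) → ℝ}
    (h : ∀ G, f G ≤ g G) : EE r K n f ≤ EE r K n g :=
  Finset.sum_le_sum fun G _ => mul_le_mul_of_nonneg_left (h G)
    (Finset.prod_nonneg fun l _ => ex_nonneg h0 h1 n fun _ => ind_nonneg _)

theorem EE_resample (i j : Fin K) (h : (Fin K → Fin n → Bool) → ℝ) :
    EE r K n h = EE r K n (fun G => ex2 r n (fun x y => h (upd G i j x y))) :=
  resample2 (i := i) (j := j) h

theorem EE_coord (i : Fin K) (g : (Fin n → Bool) → ℝ) :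
    EE r K n (fun G => g (G i)) = ex r n g := by
  classical
  unfold EE
  rw [resample (mu r n) (sum_mu n) i]
  simp only [Function.update_self]
  rw [← Finset.sum_mul, sum_weights, one_mul, ex_eq_sum]

theorem EE_size : EE r K n (fun G => ∑ l, ((fm G l).card : ℝ)) = K * (n * r) := by
  rw [EE_sum]
  have h1 : ∀ l : Fin K, EE r K n (fun G => ((fm G l).card : ℝ)) = n * r := by
    intro l
    rw [EE_coord l fun x => ((Ent.setOf x).card : ℝ)]
    have h2 : ∀ x : Fin n → Bool, ((Ent.setOf x).card : ℝ) = ∑ i, ind (x i = true) := by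
      intro x
      rw [Ent.setOf, Finset.card_filter, Nat.cast_sum]
      apply Finset.sum_congr rfl
      intro i _
      by_cases h : x i = true
      · rw [ind_true h, if_pos h, Nat.cast_one]
      · rw [ind_false h, if_neg h, Nat.cast_zero]
    simp only [h2]
    rw [ex_sum]
    simp only [ex_coord]
    rw [Finset.sum_const, Finset.card_univ, Fintype.card_fin, nsmul_eq_mul]
  simp only [h1]
  rw [Finset.sum_const, Finset.card_univ, Fintype.card_fin, nsmul_eq_mul]

end

theorem sum_ind_not {Ω : Type} [Fintype Ω] (p : Ω → ℝ) (hp1 : ∑ ω, p ω = 1) (P : Ω → Prop)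
    (h : 99 / 100 ≤ ∑ ω, open Classical in if P ω then p ω else 0) :
    ∑ ω, p ω * ind (¬ P ω) ≤ 1 / 100 := by
  classical
  have h3 : ∑ ω, p ω * ind (¬ P ω) + ∑ ω, (if P ω then p ω else 0) = 1 := by
    rw [← Finset.sum_add_distrib, ← hp1]
    apply Finset.sum_congr rfl
    intro ω _
    by_cases h4 : P ω
    · rw [if_pos h4, ind_false (not_not.2 h4)]
      ring
    · rw [if_neg h4, ind_true h4]
      ring
  have h5 : (∑ ω, open Classical in if P ω then p ω else 0) = ∑ ω, (if P ω then p ω else 0) := by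
    congr
  rw [h5] at h
  linarith

/-- **Main lemma.** A random data structure which decides with at most `T` probes and with error at
most `1 / 100`, for all families of total size at most `N`, for every pair in `I` whether its two
sets are disjoint, has expected total entanglement at least `|I| / 160`. -/
theorem average {K n w s b T m N : ℕ} (hb : 1 ≤ b) (hwb : w ≤ b)
    (hm : 100 * (3 * b * T + 12) ≤ m) (hn : n = m ^ 2) (hN : 400 * (K * m) ≤ N)
    {Ω : Type} [Fintype Ω] (p : Ω → ℝ) (hp0 : ∀ ω, 0 ≤ p ω) (hp1 : ∑ ω, p ω = 1)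
    (B : Ω → Fin s → Board K (Finset (Fin n)) (Fin (2 ^ w))) (I : Finset (Fin K × Fin K))
    (hI : ∀ e ∈ I, e.1 ≠ e.2) (v : Bool)
    (hgood : ∀ e ∈ I, ∃ t : Ω → QTree s (Fin (2 ^ w)) Bool, ∀ F : Fin K → Finset (Fin n),
      ∑ l, (F l).card ≤ N → 99 / 100 ≤
      ∑ ω, open Classical in if Right T v (B ω) (t ω) F e.1 e.2 then p ω else 0)
    (R : ℝ) (hR : ∀ F : Fin K → Finset (Fin n), ∑ l, (F l).card ≤ N →
      ∑ ω, p ω * ∑ e ∈ I, ((own b (B ω) F e.1 e.2).card : ℝ) ≤ R) :
    (I.card : ℝ) ≤ 160 * R := by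
  classical
  have hm12 : 1200 ≤ m := le_trans (by omega) hm
  have hm' : (1200 : ℝ) ≤ m := by exact_mod_cast hm12
  have hinv0 : 0 < 1 / (m : ℝ) := by positivity
  have hr1 : 0 ≤ 1 - 1 / (m : ℝ) := by
    have : 1 / (m : ℝ) ≤ 1 := by
      rw [div_le_one (by linarith)]; linarith
    linarith
  have hR0 : 0 ≤ R := by
    refine le_trans ?_ (hR (fun _ => ∅) (by simp))
    exact Finset.sum_nonneg fun ω _ => mul_nonneg (hp0 ω)
      (Finset.sum_nonneg fun e _ => Nat.cast_nonneg _)
  rcases Nat.eq_zero_or_pos K with hK | hK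
  · subst hK
    have : I = ∅ := Finset.eq_empty_of_isEmpty I
    rw [this, Finset.card_empty, Nat.cast_zero]
    linarith
  have hN0 : 0 < N := lt_of_lt_of_le (by positivity) hN
  have hN0' : (0 : ℝ) < N := by exact_mod_cast hN0
  have hN' : 400 * ((K : ℝ) * m) ≤ N := by exact_mod_cast hN
  -- families which are too large
  obtain ⟨Bd, hBd⟩ : ∃ Bd : (Fin K → Fin n → Bool) → Prop,
      Bd = fun G => N < ∑ l, (fm G l).card := ⟨_, rfl⟩
  have hbad : EE (1 / (m : ℝ)) K n (fun G => ind (Bd G)) ≤ 1 / 400 := by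
    have h1 : EE (1 / (m : ℝ)) K n (fun G => ind (Bd G)) ≤
        EE (1 / (m : ℝ)) K n (fun G => 1 / N * ∑ l, ((fm G l).card : ℝ)) := by
      apply EE_mono hinv0.le hr1
      intro G
      have h0 : (0 : ℝ) ≤ ∑ l, ((fm G l).card : ℝ) := Finset.sum_nonneg fun l _ => Nat.cast_nonneg _
      by_cases h : Bd G
      · rw [ind_true h]
        rw [hBd] at h
        have h2 : (N : ℝ) ≤ ∑ l, ((fm G l).card : ℝ) := by exact_mod_cast h.le
        rw [one_div, inv_mul_eq_div, le_div_iff₀ hN0', one_mul]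
        exact h2
      · rw [ind_false h]
        positivity
    refine h1.trans ?_
    rw [EE_mul, EE_size, one_div, inv_mul_eq_div, div_le_iff₀ hN0', hn]
    push_cast
    have h3 : (K : ℝ) * ((m : ℝ) ^ 2 * (1 / m)) = K * m := by
      field_simp
    rw [h3]
    linarith
  -- one pair
  have hpair : ∀ e ∈ I, (9 / 1000 : ℝ) ≤ EE (1 / (m : ℝ)) K n (fun G =>
      ∑ ω, p ω * ind (own b (B ω) (fm G) e.1 e.2 ≠ ∅)) := by
    intro e he
    obtain ⟨t, ht⟩ := hgood e he
    have h1 : (366 / 1000 : ℝ) ≤ EE (1 / (m : ℝ)) K n (fun G => ∑ ω, p ω *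
        (28 * ind (¬ Right T v (B ω) (t ω) (fm G) e.1 e.2) + 7 / 1000 +
          ind (own b (B ω) (fm G) e.1 e.2 ≠ ∅))) := by
      rw [EE_resample e.1 e.2]
      simp only [fm_upd]
      rw [← EE_const (r := 1 / (m : ℝ)) (K := K) (n := n) (366 / 1000)]
      apply EE_mono hinv0.le hr1
      intro G
      rw [ex2_sum]
      calc (366 / 1000 : ℝ) = ∑ ω, p ω * (366 / 1000) := by rw [← Finset.sum_mul, hp1, one_mul]
        _ ≤ _ := by
          apply Finset.sum_le_sum
          intro ω _
          rw [ex2_mul]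
          apply mul_le_mul_of_nonneg_left _ (hp0 ω)
          refine (pair_key hb hwb hm hn (B ω) (t ω) v (hI e he) G).trans (le_of_eq ?_)
          rw [ex2_add, ex2_add, ex2_mul, ex2_const]
    have h2 : EE (1 / (m : ℝ)) K n (fun G => ∑ ω, p ω *
        (28 * ind (¬ Right T v (B ω) (t ω) (fm G) e.1 e.2) + 7 / 1000 +
          ind (own b (B ω) (fm G) e.1 e.2 ≠ ∅))) ≤
        EE (1 / (m : ℝ)) K n (fun G => (28 * (1 / 100 + ind (Bd G)) + 7 / 1000) +
          ∑ ω, p ω * ind (own b (B ω) (fm G) e.1 e.2 ≠ ∅)) := by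
      apply EE_mono hinv0.le hr1
      intro G
      have h3 : ∑ ω, p ω * (28 * ind (¬ Right T v (B ω) (t ω) (fm G) e.1 e.2) + 7 / 1000 +
          ind (own b (B ω) (fm G) e.1 e.2 ≠ ∅)) =
          28 * ∑ ω, p ω * ind (¬ Right T v (B ω) (t ω) (fm G) e.1 e.2) + 7 / 1000 +
            ∑ ω, p ω * ind (own b (B ω) (fm G) e.1 e.2 ≠ ∅) := by
        have h4 : (7 / 1000 : ℝ) = ∑ ω, p ω * (7 / 1000) := by
          rw [← Finset.sum_mul, hp1, one_mul]
        conv_rhs => rw [h4]
        rw [Finset.mul_sum, ← Finset.sum_add_distrib, ← Finset.sum_add_distrib]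
        apply Finset.sum_congr rfl
        intro ω _
        ring
      rw [h3]
      have h5 : ∑ ω, p ω * ind (¬ Right T v (B ω) (t ω) (fm G) e.1 e.2) ≤
          1 / 100 + ind (Bd G) := by
        by_cases h6 : Bd G
        · rw [ind_true h6]
          calc _ ≤ ∑ ω, p ω * 1 := Finset.sum_le_sum fun ω _ =>
                mul_le_mul_of_nonneg_left (ind_le_one _) (hp0 ω)
            _ ≤ _ := by
                simp only [mul_one]
                rw [hp1]
                norm_num
        · rw [ind_false h6, add_zero]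
          apply sum_ind_not p hp1
          apply ht
          rw [hBd] at h6
          exact not_lt.1 h6
      linarith
    rw [EE_add, EE_add, EE_mul, EE_add, EE_const, EE_const] at h2
    linarith
  -- all pairs
  have h1 := Finset.card_nsmul_le_sum _ _ _ hpair
  rw [nsmul_eq_mul, ← EE_sum] at h1
  have h2 : EE (1 / (m : ℝ)) K n (fun G => ∑ e ∈ I, ∑ ω, p ω *
      ind (own b (B ω) (fm G) e.1 e.2 ≠ ∅)) ≤
      EE (1 / (m : ℝ)) K n (fun G => R + I.card * ind (Bd G)) := by
    apply EE_mono hinv0.le hr1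
    intro G
    rw [Finset.sum_comm]
    have h3 : ∀ ω, ∑ e ∈ I, p ω * ind (own b (B ω) (fm G) e.1 e.2 ≠ ∅) =
        p ω * ∑ e ∈ I, ind (own b (B ω) (fm G) e.1 e.2 ≠ ∅) := fun ω => (Finset.mul_sum _ _ _).symm
    simp only [h3]
    by_cases h6 : Bd G
    · rw [ind_true h6, mul_one]
      calc _ ≤ ∑ ω, p ω * (I.card : ℝ) := by
            apply Finset.sum_le_sum
            intro ω _
            apply mul_le_mul_of_nonneg_left _ (hp0 ω)
            calc _ ≤ ∑ _e ∈ I, (1 : ℝ) := Finset.sum_le_sum fun e _ => ind_le_one _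
              _ = _ := by simp
        _ = I.card := by rw [← Finset.sum_mul, hp1, one_mul]
        _ ≤ _ := by linarith
    · rw [ind_false h6, mul_zero, add_zero]
      rw [hBd] at h6
      refine le_trans ?_ (hR (fm G) (not_lt.1 h6))
      apply Finset.sum_le_sum
      intro ω _
      apply mul_le_mul_of_nonneg_left _ (hp0 ω)
      apply Finset.sum_le_sum
      intro e _
      by_cases h7 : own b (B ω) (fm G) e.1 e.2 = ∅
      · rw [ind_false (not_not.2 h7)]
        exact Nat.cast_nonneg _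
      · rw [ind_true h7]
        exact_mod_cast Finset.card_pos.2 (Finset.nonempty_iff_ne_empty.2 h7)
  rw [EE_add, EE_const, EE_mul] at h2
  have h3 : (I.card : ℝ) * EE (1 / (m : ℝ)) K n (fun G => ind (Bd G)) ≤ I.card * (1 / 400) :=
    mul_le_mul_of_nonneg_left hbad (Nat.cast_nonneg _)
  linarith

end Pool.Agent.TH457.EntD
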