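import Pool.Agent.TH457.EntD.Tree
import Pool.Agent.W959.EntMain

set_option autoImplicit false

/-!
# One pair of sets: a data structure which decides disjointness entangles the pair
-/

namespace Pool.Agent.TH457.EntD

open Pool.Agent.W959 Pool.Agent.W959.Ent

theorem cons_eq_zero {n : ℕ} (a : Bool) (z : Fin n → Bool) :
    (Fin.cons a z : Fin (n + 1) → Bool) = zero (n + 1) ↔ a = false ∧ z = zero n := by
  constructor
  · intro h
    refine ⟨?_, ?_⟩
    · have := congrFun h 0
      simpa [zero] using this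
    · funext i
      have := congrFun h i.succ
      simpa [zero] using this
  · rintro ⟨rfl, rfl⟩
    funext i
    refine Fin.cases ?_ (fun j => ?_) i
    · simp [zero]
    · simp [zero]

/-- the probability that the sets are disjoint -/
theorem ex2_disj (r : ℝ) (n : ℕ) :
    ex2 r n (fun x y => ind (conj x y = zero n)) = (1 - r ^ 2) ^ n := by
  induction n with
  | zero =>
    have h : ∀ x y : Fin 0 → Bool, ind (conj x y = zero 0) = 1 := fun x y =>
      ind_true (Subsingleton.elim _ _)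
    simp only [h, ex2_const, pow_zero]
  | succ n ih =>
    rw [ex2_succ]
    simp only [conj_cons, cons_eq_zero]
    simp only [Bool.and_false, Bool.and_true, true_and]
    have h : ∀ x y : Fin n → Bool, ind (true = false ∧ conj x y = zero n) = 0 := fun x y =>
      ind_false (by simp)
    simp only [h, ex2_const, ih]
    rw [pow_succ]
    ring

theorem disj_ge {m : ℕ} (hm : 1200 ≤ m) : (366 / 1000 : ℝ) ≤ (1 - (1 / (m : ℝ)) ^ 2) ^ (m ^ 2) := by
  have hm' : (1200 : ℝ) ≤ m := by exact_mod_cast hm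
  obtain ⟨N, hN⟩ : ∃ N : ℝ, N = (m : ℝ) ^ 2 := ⟨_, rfl⟩
  have hN1 : 2000 ≤ N := by rw [hN]; nlinarith
  have e1 : (1 / (m : ℝ)) ^ 2 = 1 / N := by rw [hN, one_div_pow]
  have h1 : Real.exp (-(1 / (N - 1))) ≤ 1 - 1 / N := by
    have h2 := Real.add_one_le_exp (1 / (N - 1))
    have h3 : 1 / (N - 1) + 1 = N / (N - 1) := by
      have : N - 1 ≠ 0 := by linarith
      field_simp
      ring
    rw [h3] at h2
    rw [Real.exp_neg]
    have h4 : 0 < N / (N - 1) := div_pos (by linarith) (by linarith)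
    calc (Real.exp (1 / (N - 1)))⁻¹ ≤ (N / (N - 1))⁻¹ := inv_anti₀ h4 h2
      _ = 1 - 1 / N := by
        rw [inv_div]
        have : N ≠ 0 := by linarith
        field_simp
  have h5 : Real.exp (-(1 / (N - 1))) ^ (m ^ 2) = Real.exp (-(N / (N - 1))) := by
    rw [← Real.exp_nat_mul]
    congr 1
    push_cast
    rw [← hN]
    ring
  have h6 : N / (N - 1) ≤ 1 + 1 / 1000 := by
    rw [div_le_iff₀ (by linarith)]
    linarith
  have h7 : Real.exp (1 + 1 / 1000) ≤ 2722 / 1000 := by
    rw [Real.exp_add]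
    have h8 := Real.exp_one_lt_d9
    have h9 : Real.exp (1 / 1000) ≤ 1000 / 999 := by
      have := Real.add_one_le_exp (-(1 / 1000 : ℝ))
      rw [Real.exp_neg] at this
      have h10 : (999 / 1000 : ℝ) ≤ (Real.exp (1 / 1000))⁻¹ := by linarith
      have h11 := inv_anti₀ (by norm_num : (0 : ℝ) < 999 / 1000) h10
      rw [inv_inv] at h11
      linarith
    have h12 : 0 < Real.exp (1 / 1000) := Real.exp_pos _
    have h13 : 0 < Real.exp 1 := Real.exp_pos _
    nlinarith
  rw [e1]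
  calc (366 / 1000 : ℝ) ≤ (2722 / 1000)⁻¹ := by norm_num
    _ ≤ (Real.exp (1 + 1 / 1000))⁻¹ := inv_anti₀ (Real.exp_pos _) h7
    _ = Real.exp (-(1 + 1 / 1000)) := (Real.exp_neg _).symm
    _ ≤ Real.exp (-(N / (N - 1))) := Real.exp_le_exp.2 (by linarith)
    _ = Real.exp (-(1 / (N - 1))) ^ (m ^ 2) := h5.symm
    _ ≤ _ := pow_le_pow_left₀ (Real.exp_pos _).le h1 _

theorem gamma_le {m : ℕ} (hm : 10 ≤ m) : (1 - 1 / (22 * (m : ℝ) ^ 2)) ^ (m ^ 2) ≤ 22 / 23 := by
  have hm' : (10 : ℝ) ≤ m := by exact_mod_cast hm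
  have h0 : 0 ≤ 1 - 1 / (22 * (m : ℝ) ^ 2) := by
    have : 1 / (22 * (m : ℝ) ^ 2) ≤ 1 := by
      rw [div_le_one (by positivity)]
      nlinarith
    linarith
  have h1 : 1 - 1 / (22 * (m : ℝ) ^ 2) ≤ Real.exp (-(1 / (22 * (m : ℝ) ^ 2))) := by
    have := Real.add_one_le_exp (-(1 / (22 * (m : ℝ) ^ 2)))
    linarith
  calc (1 - 1 / (22 * (m : ℝ) ^ 2)) ^ (m ^ 2) ≤ Real.exp (-(1 / (22 * (m : ℝ) ^ 2))) ^ (m ^ 2) :=
        pow_le_pow_left₀ h0 h1 _
    _ = Real.exp (-(1 / 22)) := by
        rw [← Real.exp_nat_mul]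
        congr 1
        push_cast
        field_simp
    _ = (Real.exp (1 / 22))⁻¹ := Real.exp_neg _
    _ ≤ (23 / 22)⁻¹ := by
        apply inv_anti₀ (by norm_num)
        have := Real.add_one_le_exp (1 / 22 : ℝ)
        linarith
    _ = 22 / 23 := by norm_num

theorem two_rpow_le {m : ℕ} {e : ℝ} (he : 100 * e ≤ m) :
    (2 : ℝ) ^ (e * (1 / ((m : ℝ) + 1))) ≤ 1007 / 1000 := by
  have hm0 : (0 : ℝ) ≤ m := Nat.cast_nonneg m
  have h1 : e * (1 / ((m : ℝ) + 1)) ≤ 1 / 100 := by
    rw [mul_one_div, div_le_iff₀ (by linarith)]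
    linarith
  calc (2 : ℝ) ^ (e * (1 / ((m : ℝ) + 1))) ≤ 2 ^ (1 / 100 : ℝ) :=
        Real.rpow_le_rpow_of_exponent_le (by norm_num) h1
    _ ≤ ((1007 / 1000 : ℝ) ^ (100 : ℕ)) ^ (1 / 100 : ℝ) :=
        Real.rpow_le_rpow (by norm_num) (by norm_num) (by norm_num)
    _ = 1007 / 1000 := by
        rw [← Real.rpow_natCast, ← Real.rpow_mul (by norm_num)]
        norm_num

theorem holder_leaf {m : ℕ} (hm : 10 ≤ m) (e : ℝ) (P : ℝ) (hP : 0 ≤ P) :
    P ^ (1 / (1 + 1 / (m : ℝ))) ≤
      (2 : ℝ) ^ (e * (1 / ((m : ℝ) + 1))) * P + 2 ^ (-e * (1 - 1 / ((m : ℝ) + 1))) := by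
  have hm' : (10 : ℝ) ≤ m := by exact_mod_cast hm
  have hm0 : (0 : ℝ) < m := by linarith
  obtain ⟨θ, hθ⟩ : ∃ θ : ℝ, θ = 1 / ((m : ℝ) + 1) := ⟨_, rfl⟩
  have hθ0 : 0 < θ := by rw [hθ]; positivity
  have hθ1 : θ < 1 := by
    rw [hθ, div_lt_one (by linarith)]
    linarith
  have e1 : 1 / (1 + 1 / (m : ℝ)) = 1 - θ := by
    rw [hθ]
    field_simp
    ring
  rw [e1, ← hθ]
  have h2 : (0 : ℝ) < 2 ^ (-e) := Real.rpow_pos_of_pos (by norm_num) _
  by_cases h : (2 : ℝ) ^ (-e) ≤ P
  · have hP0 : 0 < P := h2.trans_le h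
    have h3 : P ^ (1 - θ) = P * P ^ (-θ) := by
      rw [show 1 - θ = 1 + -θ by ring, Real.rpow_add hP0, Real.rpow_one]
    have h4 : P ^ (-θ) ≤ 2 ^ (e * θ) := by
      calc P ^ (-θ) ≤ ((2 : ℝ) ^ (-e)) ^ (-θ) :=
            Real.rpow_le_rpow_of_nonpos h2 h (by linarith)
        _ = 2 ^ (e * θ) := by
            rw [← Real.rpow_mul (by norm_num)]
            congr 1
            ring
    rw [h3]
    have h5 : (0 : ℝ) < 2 ^ (-e * (1 - θ)) := Real.rpow_pos_of_pos (by norm_num) _
    nlinarith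
  · push Not at h
    have h3 : P ^ (1 - θ) ≤ ((2 : ℝ) ^ (-e)) ^ (1 - θ) :=
      Real.rpow_le_rpow hP h.le (by linarith)
    rw [← Real.rpow_mul (by norm_num)] at h3
    have h5 : (0 : ℝ) < 2 ^ (e * θ) := Real.rpow_pos_of_pos (by norm_num) _
    nlinarith

theorem bad_eq_zero {s : ℕ} {V R : Type} (mem : Fin s → V) (P : Fin s → Prop)
    (h : ∀ c, ¬ P c) (t : QTree s V R) : t.bad mem P = 0 := by
  induction t with
  | out a => rfl
  | probe c next ih =>
    simp only [QTree.bad, ih, if_neg (h c)]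

variable {K n w s b T m : ℕ}

/-- the family in which the sets number `i` and `j` are `x` and `y` and the others are given by
`G` -/
abbrev fam (G : Fin K → Fin n → Bool) (i j : Fin K) (x y : Fin n → Bool) :
    Fin K → Finset (Fin n) := upd (fun l => Ent.setOf (G l)) i j (Ent.setOf x) (Ent.setOf y)

/-- the cells which entangle the pair `(i, j)` -/
def own (b : ℕ) (B : Fin s → Board K (Finset (Fin n)) (Fin (2 ^ w))) (F : Fin K → Finset (Fin n))
    (i j : Fin K) : Finset (Fin s) :=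
  Finset.univ.filter fun c => 0 < (B c).bits F i ∧ 0 < (B c).bits F j ∧
    b < (B c).bits F i + (B c).bits F j

/-- The answer to a query about the disjointness of the sets number `i` and `j` is right after at
most `T` probes. The answer is `v` if and only if the sets are disjoint. -/
def Right (T : ℕ) (v : Bool) (B : Fin s → Board K (Finset (Fin n)) (Fin (2 ^ w)))
    (t : QTree s (Fin (2 ^ w)) Bool) (F : Fin K → Finset (Fin n)) (i j : Fin K) : Prop :=
  (t.run (fun c => (B c).run F) = v ↔ Disjoint (F i) (F j)) ∧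
    t.cost (fun c => (B c).run F) ≤ T

theorem disjoint_iff (x y : Fin n → Bool) :
    Disjoint (Ent.setOf x) (Ent.setOf y) ↔ conj x y = zero n := by
  rw [Finset.disjoint_left]
  constructor
  · intro h
    funext i
    have := @h i
    simp only [Ent.setOf, Finset.mem_filter, Finset.mem_univ, true_and] at this
    simp only [conj, zero]
    cases h1 : x i <;> cases h2 : y i <;> simp_all
  · intro h i h1 h2
    have := congrFun h i
    simp only [Ent.setOf, Finset.mem_filter, Finset.mem_univ, true_and] at h1 h2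
    simp [conj, zero, h1, h2] at this

/-- If a data structure decides with at most `T` probes whether the sets number `i` and `j` are
disjoint, then the probability of an error, for random sets, is at least a constant, unless the pair
is entangled with constant probability. -/
theorem pair_key (hb : 1 ≤ b) (hwb : w ≤ b) (hm : 100 * (3 * b * T + 12) ≤ m) (hn : n = m ^ 2)
    (B : Fin s → Board K (Finset (Fin n)) (Fin (2 ^ w)))
    (t : QTree s (Fin (2 ^ w)) Bool) (v : Bool) {i j : Fin K} (hij : i ≠ j)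
    (G : Fin K → Fin n → Bool) :
    (366 / 1000 : ℝ) ≤
      28 * ex2 (1 / (m : ℝ)) n (fun x y => ind (¬ Right T v B t (fam G i j x y) i j)) +
      7 / 1000 + ex2 (1 / (m : ℝ)) n (fun x y => ind (own b B (fam G i j x y) i j ≠ ∅)) := by
  have hm12 : 1200 ≤ m := le_trans (by omega) hm
  have hm10 : 10 ≤ m := by omega
  have hb1 : 3 ≤ 3 * b * T + 12 := by omega
  have hmr : 100 * ((3 * b * T + 12 : ℕ) : ℝ) ≤ m := by exact_mod_cast hm
  have hm' : (1200 : ℝ) ≤ m := by exact_mod_cast hm12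
  have hm0 : (0 : ℝ) < m := by linarith
  have hinv0 : 0 < 1 / (m : ℝ) := by positivity
  have hr1 : 0 ≤ 1 - 1 / (m : ℝ) := by
    have : 1 / (m : ℝ) ≤ 1 := by
      rw [div_le_one (by linarith)]; linarith
    linarith
  obtain ⟨e, he⟩ : ∃ e : ℝ, e = ((3 * b * T + 12 : ℕ) : ℝ) := ⟨_, rfl⟩
  have he0 : 0 ≤ e := by rw [he]; positivity
  rw [← he] at hmr
  obtain ⟨α, hα⟩ : ∃ α : ℝ, α = 2 ^ (e * (1 / ((m : ℝ) + 1))) := ⟨_, rfl⟩
  obtain ⟨β, hβ⟩ : ∃ β : ℝ, β = 2 ^ (-e * (1 - 1 / ((m : ℝ) + 1))) := ⟨_, rfl⟩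
  have hα0 : 0 ≤ α := by rw [hα]; positivity
  have hβ0 : 0 ≤ β := by rw [hβ]; positivity
  have hα1 : α ≤ 1007 / 1000 := by rw [hα]; exact two_rpow_le hmr
  have hβ1 : β * ((2 : ℝ) ^ (3 * b)) ^ T ≤ 1007 / 1000 * (1 / 4096) := by
    have h1 : β * ((2 : ℝ) ^ (3 * b)) ^ T = α * (1 / 4096) := by
      rw [hα, hβ, ← pow_mul, ← Real.rpow_natCast, ← Real.rpow_add (by norm_num),
        show (1 / 4096 : ℝ) = 2 ^ (-12 : ℝ) by
          rw [Real.rpow_neg (by norm_num)]; norm_num,
        ← Real.rpow_add (by norm_num)]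
      congr 1
      rw [he]
      push_cast
      ring
    rw [h1]
    exact mul_le_mul_of_nonneg_right hα1 (by norm_num)
  obtain ⟨γ, hγ⟩ : ∃ γ : ℝ, γ = (1 - 1 / (22 * (m : ℝ) ^ 2)) ^ n := ⟨_, rfl⟩
  have hγ1 : γ ≤ 22 / 23 := by rw [hγ, hn]; exact gamma_le hm10
  have hγ0 : 0 ≤ γ := by
    rw [hγ]
    apply pow_nonneg
    have : 1 / (22 * (m : ℝ) ^ 2) ≤ 1 := by
      rw [div_le_one (by positivity)]
      nlinarith
    linarith
  let φ : Fin s → (Fin n → Bool) → (Fin n → Bool) → Fin (2 ^ w) := fun c x y =>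
    (B c).run (fam G i j x y)
  let q : Fin s → (Fin n → Bool) → (Fin n → Bool) → Option (Lab w b) := fun c x y =>
    lab b (B c) (fun l => Ent.setOf (G l)) i j hij (Ent.setOf x) (Ent.setOf y)
  have hM : ((Fintype.card (Lab w b) : ℕ) : ℝ) ≤ (2 : ℝ) ^ (3 * b) := by
    exact_mod_cast card_lab hb hwb
  have h1 := tree_cor hm10 n w s φ ((2 : ℝ) ^ (3 * b)) (one_le_pow₀ (by norm_num)) hM q
    (fun c x x' y y' l h h' => (lab_spec (B c) _ hij _ _ _ _ l h h').1)
    (fun c x x' y y' l h h' => (lab_spec (B c) _ hij _ _ _ _ l h h').2)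
    v hα0 hβ0 (fun P hP => by rw [hα, hβ]; exact holder_leaf hm10 e P hP) t T
    (fun _ => True) (fun _ => True)
  rw [← hγ] at h1
  simp only [true_and] at h1
  obtain ⟨A, hA⟩ : ∃ A, A = ex2 (1 / (m : ℝ)) n
      (fun x y => ind (Acc φ q v t T x y ∧ conj x y = zero n)) := ⟨_, rfl⟩
  obtain ⟨g, hg⟩ : ∃ g, g = ex2 (1 / (m : ℝ)) n
      (fun x y => ind (¬ Right T v B t (fam G i j x y) i j)) := ⟨_, rfl⟩
  obtain ⟨h, hh⟩ : ∃ h, h = ex2 (1 / (m : ℝ)) n
      (fun x y => ind (own b B (fam G i j x y) i j ≠ ∅)) := ⟨_, rfl⟩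
  have hfam : ∀ x y, fam G i j x y i = Ent.setOf x ∧ fam G i j x y j = Ent.setOf y :=
    fun x y => ⟨upd_left _ hij _ _, upd_right _ _ _ _ _⟩
  have hright : ∀ x y, Acc φ q v t T x y → Right T v B t (fam G i j x y) i j →
      conj x y = zero n := by
    rintro x y ⟨-, -, h3⟩ ⟨h4, -⟩
    rw [← disjoint_iff, ← (hfam x y).1, ← (hfam x y).2]
    exact h4.1 h3
  have h2 : ex2 (1 / (m : ℝ)) n (fun x y => ind (Acc φ q v t T x y)) ≤ A + g := by
    rw [hA, hg, ← ex2_add]
    apply ex2_mono hinv0.le hr1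
    intro x y
    by_cases h3 : Acc φ q v t T x y
    · by_cases h4 : Right T v B t (fam G i j x y) i j
      · rw [ind_true h3, ind_true ⟨h3, hright x y h3 h4⟩]
        have := ind_nonneg (¬ Right T v B t (fam G i j x y) i j)
        linarith
      · rw [ind_true h3, ind_true h4]
        have := ind_nonneg (Acc φ q v t T x y ∧ conj x y = zero n)
        linarith
    · rw [ind_false h3]
      exact add_nonneg (ind_nonneg _) (ind_nonneg _)
  have h3 : (366 / 1000 : ℝ) ≤ A + g + h := by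
    have h4 : (366 / 1000 : ℝ) ≤
        ex2 (1 / (m : ℝ)) n (fun x y => ind (conj x y = zero n)) := by
      rw [ex2_disj, hn]
      exact disj_ge hm12
    refine h4.trans ?_
    rw [hA, hg, hh, ← ex2_add, ← ex2_add]
    apply ex2_mono hinv0.le hr1
    intro x y
    have i1 := ind_nonneg (Acc φ q v t T x y ∧ conj x y = zero n)
    have i2 := ind_nonneg (¬ Right T v B t (fam G i j x y) i j)
    have i3 := ind_nonneg (own b B (fam G i j x y) i j ≠ ∅)
    by_cases h5 : conj x y = zero n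
    · rw [ind_true h5]
      by_cases h6 : Right T v B t (fam G i j x y) i j
      · by_cases h7 : own b B (fam G i j x y) i j = ∅
        · have h8 : Acc φ q v t T x y := by
            refine ⟨h6.2, ?_, ?_⟩
            · apply bad_eq_zero
              intro c hc
              have h9 := lab_none hc
              have h10 : c ∈ own b B (fam G i j x y) i j :=
                Finset.mem_filter.2 ⟨Finset.mem_univ _, h9⟩
              rw [h7] at h10
              exact absurd h10 (Finset.notMem_empty c)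
            · apply h6.1.2
              rw [(hfam x y).1, (hfam x y).2, disjoint_iff]
              exact h5
          rw [ind_true ⟨h8, h5⟩]
          linarith
        · rw [ind_true h7]
          linarith
      · rw [ind_true h6]
        linarith
    · rw [ind_false h5]
      linarith
  rw [← hA] at h1
  rw [← hg, ← hh]
  have hg0 : 0 ≤ g := by
    rw [hg]
    exact ex2_nonneg hinv0.le hr1 n fun x y => ind_nonneg _
  have hA0 : 0 ≤ A := by
    rw [hA]
    exact ex2_nonneg hinv0.le hr1 n fun x y => ind_nonneg _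
  have h4 : A ≤ 22 / 23 * (1007 / 1000 * (A + g) + 1007 / 1000 * (1 / 4096)) := by
    refine h1.trans ?_
    have h5 : α * ex2 (1 / (m : ℝ)) n (fun x y => ind (Acc φ q v t T x y)) ≤
        1007 / 1000 * (A + g) := by
      calc _ ≤ α * (A + g) := mul_le_mul_of_nonneg_left h2 hα0
        _ ≤ _ := mul_le_mul_of_nonneg_right hα1 (by linarith)
    have h6 := add_le_add h5 hβ1
    calc _ ≤ γ * (1007 / 1000 * (A + g) + 1007 / 1000 * (1 / 4096)) :=
          mul_le_mul_of_nonneg_left h6 hγ0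
      _ ≤ _ := mul_le_mul_of_nonneg_right hγ1 (by linarith)
  linarith

end Pool.Agent.TH457.EntD
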