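import Pool.Agent.W959.EntBoard

set_option autoImplicit false

/-!
# Adaptive queries which decide disjointness: a corruption bound

A query procedure reads cells and answers `v` or not. Outside of an exceptional set every cell is
constant on the parts of a partition into rectangles. We compare the probability that the answer is
`v` (after at most `d` probes, none of them exceptional) and the two sets are disjoint with the
probability that the answer is `v`: the first one is smaller by a constant factor, up to a small
error.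
-/

namespace Pool.Agent.TH457.EntD

open Pool.Agent.W959 Pool.Agent.W959.Ent

/-- the all-zero vector -/
def zero (n : ℕ) : Fin n → Bool := fun _ => false

theorem nz_zero (n : ℕ) : nz (zero n) = n := by
  simp [nz, zero]

/-- The procedure answers `v` after at most `d` probes, and reads no exceptional cell. -/
def Acc {n w s : ℕ} {L : Type} (φ : Fin s → (Fin n → Bool) → (Fin n → Bool) → Fin (2 ^ w))
    (q : Fin s → (Fin n → Bool) → (Fin n → Bool) → Option L) (v : Bool)
    (t : QTree s (Fin (2 ^ w)) Bool) (d : ℕ) (x y : Fin n → Bool) : Prop :=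
  t.cost (fun c => φ c x y) ≤ d ∧ t.bad (fun c => φ c x y) (fun c => q c x y = none) = 0 ∧
    t.run (fun c => φ c x y) = v

theorem sum_ind_le {L : Type} [Fintype L] (Q : L → Prop) (P : Prop) (h : ∀ l, Q l → P)
    (h' : ∀ l l', Q l → Q l' → l = l') : ∑ l, ind (Q l) ≤ ind P := by
  classical
  by_cases hQ : ∃ l, Q l
  · obtain ⟨l, hl⟩ := hQ
    rw [Finset.sum_eq_single l, ind_true hl, ind_true (h l hl)]
    · intro l' _ hne
      exact ind_false fun h0 => hne (h' l' l h0 hl)
    · intro h0
      exact absurd (Finset.mem_univ l) h0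
  · push Not at hQ
    rw [Finset.sum_eq_zero fun l _ => ind_false (hQ l)]
    exact ind_nonneg _

/-- the bound for the trees -/
theorem tree_cor {m : ℕ} (hm : 10 ≤ m) (n w s : ℕ)
    (φ : Fin s → (Fin n → Bool) → (Fin n → Bool) → Fin (2 ^ w))
    {L : Type} [Fintype L] (M : ℝ) (hM1 : 1 ≤ M) (hL : (Fintype.card L : ℝ) ≤ M)
    (q : Fin s → (Fin n → Bool) → (Fin n → Bool) → Option L)
    (hq : ∀ c x x' y y' l, q c x y = some l → q c x' y' = some l → q c x y' = some l)
    (hφ : ∀ c x x' y y' l, q c x y = some l → q c x' y' = some l → φ c x y = φ c x' y')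
    (v : Bool) {α β : ℝ} (hα : 0 ≤ α) (hβ : 0 ≤ β)
    (hP : ∀ P : ℝ, 0 ≤ P → P ^ (1 / (1 + 1 / (m : ℝ))) ≤ α * P + β)
    (t : QTree s (Fin (2 ^ w)) Bool) (d : ℕ) (X Y : (Fin n → Bool) → Prop) :
    ex2 (1 / (m : ℝ)) n (fun x y => ind (X x ∧ Y y ∧ Acc φ q v t d x y ∧ conj x y = zero n)) ≤
      (1 - 1 / (22 * (m : ℝ) ^ 2)) ^ n *
        (α * ex2 (1 / (m : ℝ)) n (fun x y => ind (X x ∧ Y y ∧ Acc φ q v t d x y)) + β * M ^ d) := by
  classical
  have hm' : (10 : ℝ) ≤ m := by exact_mod_cast hm
  have hm0 : (0 : ℝ) < m := by linarith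
  have hinv : 1 / (m : ℝ) ≤ 1 / 10 := by
    apply one_div_le_one_div_of_le <;> linarith
  have hinv0 : 0 < 1 / (m : ℝ) := by positivity
  have hr1 : 0 ≤ 1 - 1 / (m : ℝ) := by linarith
  have hp0 : 0 < 1 + 1 / (m : ℝ) := by linarith
  have hg0 : 0 ≤ (1 - 1 / (22 * (m : ℝ) ^ 2)) ^ n := by
    apply pow_nonneg
    have : 1 / (22 * (m : ℝ) ^ 2) ≤ 1 := by
      rw [div_le_one (by positivity)]
      nlinarith
    linarith
  have hnrm : ∀ Z : (Fin n → Bool) → Prop, nrm m n (fun x => ind (Z x)) =
      (ex (1 / (m : ℝ)) n fun x => ind (Z x)) ^ (1 / (1 + 1 / (m : ℝ))) := by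
    intro Z
    unfold nrm
    congr 2
    funext x
    simp only
    by_cases h : Z x
    · rw [ind_true h, Real.one_rpow]
    · rw [ind_false h, Real.zero_rpow hp0.ne']
  have hM0 : ∀ d : ℕ, 1 ≤ M ^ d := fun d => one_le_pow₀ hM1
  induction t generalizing d X Y with
  | out a =>
    by_cases ha : a = v
    · subst ha
      simp only [Acc, QTree.run, QTree.cost, QTree.bad, Nat.zero_le, true_and, and_true]
      have h1 := tensor hm n (f := fun x => ind (X x)) (g := fun y => ind (Y y))
        (fun x => ind_nonneg _) (fun x => ind_nonneg _) (zero n)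
      rw [nz_zero, hnrm, hnrm] at h1
      have e1 : ∀ x y : Fin n → Bool, ind (X x ∧ Y y ∧ conj x y = zero n) =
          ind (X x) * ind (Y y) * ind (conj x y = zero n) := by
        intro x y
        rw [mul_assoc]
        by_cases hX : X x <;> by_cases hY : Y y <;> by_cases hZ : conj x y = zero n <;>
          simp [ind, hX, hY, hZ]
      have e2 : ∀ x y : Fin n → Bool, ind (X x ∧ Y y) = ind (X x) * ind (Y y) := by
        intro x y
        by_cases hX : X x <;> by_cases hY : Y y <;> simp [ind, hX, hY]
      simp only [e1, e2]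
      rw [ex2_prod]
      refine h1.trans ?_
      apply mul_le_mul_of_nonneg_left _ hg0
      have hx : 0 ≤ ex (1 / (m : ℝ)) n fun x => ind (X x) :=
        ex_nonneg hinv0.le hr1 n fun x => ind_nonneg _
      have hy : 0 ≤ ex (1 / (m : ℝ)) n fun x => ind (Y x) :=
        ex_nonneg hinv0.le hr1 n fun x => ind_nonneg _
      rw [← Real.mul_rpow hx hy]
      refine (hP _ (mul_nonneg hx hy)).trans ?_
      have := hM0 d
      nlinarith
    · have e1 : ∀ x y : Fin n → Bool,
          ind (X x ∧ Y y ∧ Acc φ q v (.out a) d x y ∧ conj x y = zero n) = 0 := by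
        intro x y
        exact ind_false fun h => ha h.2.2.1.2.2
      have e2 : ∀ x y : Fin n → Bool,
          ind (X x ∧ Y y ∧ Acc φ q v (.out a) d x y) = 0 := by
        intro x y
        exact ind_false fun h => ha h.2.2.2.2
      simp only [e1, e2, ex2_const]
      have := hM0 d
      positivity
  | probe c next ih =>
    have hE0 : 0 ≤ ex2 (1 / (m : ℝ)) n
        (fun x y => ind (X x ∧ Y y ∧ Acc φ q v (.probe c next) d x y)) :=
      ex2_nonneg hinv0.le hr1 n fun x y => ind_nonneg _
    cases d with
    | zero =>
      have e1 : ∀ x y : Fin n → Bool,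
          ind (X x ∧ Y y ∧ Acc φ q v (.probe c next) 0 x y ∧ conj x y = zero n) = 0 := by
        intro x y
        apply ind_false
        rintro ⟨-, -, ⟨h, -⟩, -⟩
        simp only [QTree.cost] at h
        omega
      simp only [e1, ex2_const]
      positivity
    | succ d =>
      have hpos : 0 < 2 ^ w := by positivity
      -- the contents on a part
      let g' : L → Fin (2 ^ w) := fun l =>
        if h : ∃ xy : (Fin n → Bool) × (Fin n → Bool), q c xy.1 xy.2 = some l then
          φ c h.choose.1 h.choose.2 else ⟨0, hpos⟩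
      have hg' : ∀ x y l, q c x y = some l → φ c x y = g' l := by
        intro x y l h
        have h0 : ∃ xy : (Fin n → Bool) × (Fin n → Bool), q c xy.1 xy.2 = some l := ⟨(x, y), h⟩
        simp only [g', dif_pos h0]
        exact hφ c _ _ _ _ l h h0.choose_spec
      -- the parts
      let Xl : L → (Fin n → Bool) → Prop := fun l x => X x ∧ ∃ y, q c x y = some l
      let Yl : L → (Fin n → Bool) → Prop := fun l y => Y y ∧ ∃ x, q c x y = some l
      have hmem : ∀ l x y, Xl l x → Yl l y → q c x y = some l := by
        rintro l x y ⟨-, y', h1⟩ ⟨-, x', h2⟩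
        exact hq c x x' y' y l h1 h2
      have hacc : ∀ x y l, q c x y = some l →
          (Acc φ q v (.probe c next) (d + 1) x y ↔ Acc φ q v (next (g' l)) d x y) := by
        intro x y l h
        have e := hg' x y l h
        have hne : ¬ (q c x y = none) := by rw [h]; simp
        simp only [Acc, QTree.run, QTree.cost, QTree.bad, if_neg hne, e, add_zero]
        constructor
        · rintro ⟨h1, h2, h3⟩
          exact ⟨by omega, h2, h3⟩
        · rintro ⟨h1, h2, h3⟩
          exact ⟨by omega, h2, h3⟩
      calc ex2 (1 / (m : ℝ)) n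
            (fun x y => ind (X x ∧ Y y ∧ Acc φ q v (.probe c next) (d + 1) x y ∧ conj x y = zero n))
          ≤ ex2 (1 / (m : ℝ)) n (fun x y => ∑ l,
            ind (Xl l x ∧ Yl l y ∧ Acc φ q v (next (g' l)) d x y ∧ conj x y = zero n)) := by
            apply ex2_mono hinv0.le hr1
            intro x y
            by_cases h : X x ∧ Y y ∧ Acc φ q v (.probe c next) (d + 1) x y ∧ conj x y = zero n
            · obtain ⟨h1, h2, h3, h4⟩ := h
              have hne : q c x y ≠ none := by
                intro h0
                have := h3.2.1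
                simp only [QTree.bad, h0, if_true] at this
                omega
              obtain ⟨l, hl⟩ := Option.ne_none_iff_exists'.1 hne
              rw [ind_true ⟨h1, h2, h3, h4⟩]
              refine le_trans ?_ (Finset.single_le_sum (fun l _ => ind_nonneg _)
                (Finset.mem_univ l))
              rw [ind_true ⟨⟨h1, y, hl⟩, ⟨h2, x, hl⟩, (hacc x y l hl).1 h3, h4⟩]
            · rw [ind_false h]
              exact Finset.sum_nonneg fun l _ => ind_nonneg _
        _ = ∑ l, ex2 (1 / (m : ℝ)) n (fun x y =>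
            ind (Xl l x ∧ Yl l y ∧ Acc φ q v (next (g' l)) d x y ∧ conj x y = zero n)) := by
            rw [ex2_sum]
        _ ≤ ∑ l, (1 - 1 / (22 * (m : ℝ) ^ 2)) ^ n * (α * ex2 (1 / (m : ℝ)) n
            (fun x y => ind (Xl l x ∧ Yl l y ∧ Acc φ q v (next (g' l)) d x y)) + β * M ^ d) :=
            Finset.sum_le_sum fun l _ => ih (g' l) d (Xl l) (Yl l)
        _ = (1 - 1 / (22 * (m : ℝ) ^ 2)) ^ n * (α * ex2 (1 / (m : ℝ)) n
            (fun x y => ∑ l, ind (Xl l x ∧ Yl l y ∧ Acc φ q v (next (g' l)) d x y)) +
              Fintype.card L * (β * M ^ d)) := by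
            rw [← Finset.mul_sum, Finset.sum_add_distrib, Finset.sum_const, Finset.card_univ,
              nsmul_eq_mul, ← Finset.mul_sum, ex2_sum]
        _ ≤ _ := by
            apply mul_le_mul_of_nonneg_left _ hg0
            apply add_le_add
            · apply mul_le_mul_of_nonneg_left _ hα
              apply ex2_mono hinv0.le hr1
              intro x y
              apply sum_ind_le
              · rintro l ⟨h1, h2, h3⟩
                exact ⟨h1.1, h2.1, (hacc x y l (hmem l x y h1 h2)).2 h3⟩
              · rintro l l' ⟨h1, h2, -⟩ ⟨h1', h2', -⟩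
                have e1 := hmem l x y h1 h2
                have e2 := hmem l' x y h1' h2'
                rw [e1] at e2
                exact Option.some.inj e2
            · calc (Fintype.card L : ℝ) * (β * M ^ d) ≤ M * (β * M ^ d) := by
                    apply mul_le_mul_of_nonneg_right hL
                    have := hM0 d
                    positivity
                _ = β * M ^ (d + 1) := by ring

end Pool.Agent.TH457.EntD
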